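import Pool.Agent.Zk71.Gr.Defs

set_option autoImplicit false

open MeasureTheory Filter Topology Set

namespace Pool.Agent.Zk71.Gr

variable {E : Type*} [NormedAddCommGroup E] [NormedSpace ℂ E]

/-- the condition at a point -/
def At (u : E → EReal) (z : E) : Prop :=
  UpperSemicontinuousAt u z ∧ u z < 0 ∧
    ∀ h : ℂ → E, AnalyticAt ℂ h 0 → h 0 = z → ∀ᶠ r : ℝ in 𝓝[>] 0,
      ∫⁻ θ in Ioc 0 (2 * Real.pi), (-(u (h (circleMap 0 r θ)))).toENNReal ≤
        ENNReal.ofReal (2 * Real.pi) * (-(u z)).toENNReal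

lemma isNegPSH_iff {Ω : Set E} {u : E → EReal} : IsNegPSH Ω u ↔ ∀ z ∈ Ω, At u z := Iff.rfl

/-- small circles of an analytic disc lie in a given neighbourhood -/
lemma circle_mem {h : ℂ → E} (hh : AnalyticAt ℂ h 0) {p : E → Prop}
    (hp : ∀ᶠ w in 𝓝 (h 0), p w) : ∀ᶠ r : ℝ in 𝓝[>] 0, ∀ θ : ℝ, p (h (circleMap 0 r θ)) := by
  have h1 : ∀ᶠ τ in 𝓝 (0 : ℂ), p (h τ) := hh.continuousAt.eventually hp
  obtain ⟨ε, hε, hb⟩ := Metric.eventually_nhds_iff.1 h1
  have h2 : ∀ᶠ r : ℝ in 𝓝[>] 0, r < ε := eventually_nhdsWithin_of_eventually_nhds (Iio_mem_nhds hε)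
  filter_upwards [h2, self_mem_nhdsWithin] with r hr hr0 θ
  refine hb ?_
  rw [dist_zero_right, norm_circleMap_zero, abs_of_pos hr0]
  exact hr

lemma At.congr {u v : E → EReal} {z : E} (hu : At u z) (h : u =ᶠ[𝓝 z] v) : At v z := by
  refine ⟨?_, ?_, ?_⟩
  · intro y hy
    have h1 : u z < y := by rwa [h.eq_of_nhds]
    filter_upwards [hu.1 y h1, h] with w h2 h3
    rwa [← h3]
  · rw [← h.eq_of_nhds]
    exact hu.2.1
  · intro k hk hk0
    have h1 := circle_mem hk (p := fun w => u w = v w) (by rw [hk0]; exact h)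
    filter_upwards [hu.2.2 k hk hk0, h1] with r h2 h3
    rw [← h.eq_of_nhds]
    simpa only [h3] using h2

lemma At.comp {u : E → EReal} {φ : E → E} {z : E} (hu : At u (φ z)) (hφ : AnalyticAt ℂ φ z) :
    At (fun w => u (φ w)) z := by
  refine ⟨fun y hy => ?_, hu.2.1, fun h hh h0 => ?_⟩
  · exact hφ.continuousAt.eventually (hu.1 y hy)
  · subst h0
    exact hu.2.2 (fun τ => φ (h τ)) (hφ.fun_comp hh) rfl

lemma toENNReal_neg_sub {x : EReal} (hx : x ≤ 0) {η : ℝ} (hη : 0 ≤ η) :
    (-(x - (η : EReal))).toENNReal = (-x).toENNReal + ENNReal.ofReal η := by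
  induction x with
  | bot => simp [EReal.neg_bot]
  | coe x =>
    have hx' : x ≤ 0 := by exact_mod_cast hx
    rw [← EReal.coe_sub, ← EReal.coe_neg, ← EReal.coe_neg, EReal.toENNReal_of_ne_top
      (EReal.coe_ne_top _), EReal.toENNReal_of_ne_top (EReal.coe_ne_top _), EReal.toReal_coe,
      EReal.toReal_coe, ← ENNReal.ofReal_add (by linarith) hη]
    congr 1
    ring
  | top => simp at hx

lemma usc_comp {u : E → EReal} {z : E} (hu : UpperSemicontinuousAt u z) (hneg : u z < 0)
    {F : EReal → EReal} (hF : Monotone F) (hc : ContinuousAt F (u z)) :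
    UpperSemicontinuousAt (fun w => F (u w)) z := by
  intro y hy
  have hev : ∀ᶠ t in 𝓝 (u z), F t < y := hc.eventually (Iio_mem_nhds hy)
  have : ∃ t, u z < t ∧ F t < y := by
    have hne : (𝓝[>] (u z)).NeBot := by
      have : u z ≠ ⊤ := (hneg.trans_le le_top).ne
      exact nhdsGT_neBot_of_exists_gt ⟨⊤, lt_top_iff_ne_top.2 this⟩
    have h3 : ∀ᶠ t in 𝓝[>] (u z), F t < y := eventually_nhdsWithin_of_eventually_nhds hev
    obtain ⟨t, ht1, ht2⟩ := (h3.and self_mem_nhdsWithin).exists
    exact ⟨t, ht2, ht1⟩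
  obtain ⟨t, ht1, ht2⟩ := this
  filter_upwards [hu t ht1] with w hw
  exact (hF hw.le).trans_lt ht2

lemma At.sub {u : E → EReal} {z : E} (hu : At u z) {η : ℝ} (hη : 0 ≤ η) :
    At (fun w => u w - (η : EReal)) z := by
  have hneg := hu.2.1
  have hcont : Continuous fun x : EReal => x - (η : EReal) := by
    have h1 : (fun x : EReal => x - (η : EReal)) = fun x : EReal => x + ((-η : ℝ) : EReal) := by
      funext x
      rw [sub_eq_add_neg, EReal.coe_neg]
    rw [h1, continuous_iff_continuousAt]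
    intro x
    have h2 := EReal.continuousAt_add (p := (x, ((-η : ℝ) : EReal))) (Or.inr (EReal.coe_ne_bot _))
      (Or.inr (EReal.coe_ne_top _))
    exact h2.comp (f := fun x : EReal => (x, ((-η : ℝ) : EReal))) (by fun_prop)
  refine ⟨usc_comp hu.1 hneg (fun a b hab => EReal.sub_le_sub hab le_rfl) hcont.continuousAt,
    ?_, fun h hh h0 => ?_⟩
  · refine lt_of_le_of_lt ?_ hneg
    calc u z - (η : EReal) ≤ u z - ((0 : ℝ) : EReal) :=
          EReal.sub_le_sub le_rfl (by exact_mod_cast hη)
      _ = u z := by simp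
  · have h1 := circle_mem hh (p := fun w => u w < 0) (by rw [h0]; exact hu.1 0 hneg)
    filter_upwards [hu.2.2 h hh h0, h1] with r h2 h3
    have h4 : ∀ θ, (-(u (h (circleMap 0 r θ)) - (η : EReal))).toENNReal =
        (-(u (h (circleMap 0 r θ)))).toENNReal + ENNReal.ofReal η := fun θ =>
      toENNReal_neg_sub (h3 θ).le hη
    simp_rw [h4]
    rw [toENNReal_neg_sub hneg.le hη, lintegral_add_right _ measurable_const, mul_add]
    refine add_le_add h2 (le_of_eq ?_)
    rw [lintegral_const, Measure.restrict_apply_univ, Real.volume_Ioc, sub_zero, mul_comm]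

lemma At.max {u v : E → EReal} {z : E} (hu : At u z) (hv : At v z) :
    At (fun w => max (u w) (v w)) z := by
  refine ⟨fun y hy => ?_, max_lt hu.2.1 hv.2.1, fun h hh h0 => ?_⟩
  · have hy := max_lt_iff.1 hy
    filter_upwards [hu.1 y hy.1, hv.1 y hy.2] with w h1 h2
    exact max_lt h1 h2
  · filter_upwards [hu.2.2 h hh h0, hv.2.2 h hh h0] with r h1 h2
    rcases le_total (u z) (v z) with h3 | h3
    · rw [max_eq_right h3]
      refine le_trans (lintegral_mono fun θ => ?_) h2
      exact EReal.toENNReal_le_toENNReal (EReal.neg_le_neg_iff.2 (le_max_right _ _))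
    · rw [max_eq_left h3]
      refine le_trans (lintegral_mono fun θ => ?_) h1
      exact EReal.toENNReal_le_toENNReal (EReal.neg_le_neg_iff.2 (le_max_left _ _))

lemma toENNReal_neg_mul {x : EReal} (hx : x ≤ 0) {K : ℝ} (hK : 0 < K) :
    (-((K : EReal) * x)).toENNReal = ENNReal.ofReal K * (-x).toENNReal := by
  induction x with
  | bot =>
    rw [EReal.coe_mul_bot_of_pos hK]
    simp [ENNReal.mul_top, hK]
  | coe x =>
    have hx' : x ≤ 0 := by exact_mod_cast hx
    rw [← EReal.coe_mul, ← EReal.coe_neg, ← EReal.coe_neg, EReal.toENNReal_of_ne_top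
      (EReal.coe_ne_top _), EReal.toENNReal_of_ne_top (EReal.coe_ne_top _), EReal.toReal_coe,
      EReal.toReal_coe, ← ENNReal.ofReal_mul hK.le]
    congr 1
    ring
  | top => simp at hx

lemma mul_neg_aux {x : EReal} (hx : x < 0) {K : ℝ} (hK : 0 < K) : (K : EReal) * x < 0 := by
  induction x with
  | bot =>
    rw [EReal.coe_mul_bot_of_pos hK]
    exact EReal.bot_lt_zero
  | coe x =>
    have hx' : x < 0 := by exact_mod_cast hx
    exact_mod_cast mul_neg_of_pos_of_neg hK hx'
  | top => simp at hx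

lemma At.scale {u : E → EReal} {z : E} (hu : At u z) {K : ℝ} (hK : 0 < K) :
    At (fun w => (K : EReal) * u w) z := by
  have hneg := hu.2.1
  have hK' : (0 : EReal) < (K : EReal) := by exact_mod_cast hK
  refine ⟨usc_comp hu.1 hneg (fun a b hab => mul_le_mul_of_nonneg_left hab hK'.le) ?_,
    mul_neg_aux hneg hK, fun h hh h0 => ?_⟩
  · have h2 := EReal.continuousAt_mul (p := ((K : EReal), u z)) (Or.inl hK'.ne') (Or.inl hK'.ne')
      (Or.inl (EReal.coe_ne_bot _)) (Or.inl (EReal.coe_ne_top _))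
    exact h2.comp (f := fun x : EReal => ((K : EReal), x)) (by fun_prop)
  · have h1 := circle_mem hh (p := fun w => u w < 0) (by rw [h0]; exact hu.1 0 hneg)
    filter_upwards [hu.2.2 h hh h0, h1] with r h2 h3
    have h4 : ∀ θ, (-((K : EReal) * u (h (circleMap 0 r θ)))).toENNReal =
        ENNReal.ofReal K * (-(u (h (circleMap 0 r θ)))).toENNReal := fun θ =>
      toENNReal_neg_mul (h3 θ).le hK
    simp_rw [h4]
    rw [toENNReal_neg_mul hneg.le hK, lintegral_const_mul' _ _ ENNReal.ofReal_ne_top]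
    calc ENNReal.ofReal K * ∫⁻ θ in Ioc 0 (2 * Real.pi), (-(u (h (circleMap 0 r θ)))).toENNReal
        ≤ ENNReal.ofReal K * (ENNReal.ofReal (2 * Real.pi) * (-(u z)).toENNReal) := by gcongr
      _ = _ := by ring

/-- product of the distances to the poles -/
noncomputable def x0 {N : ℕ} (c : ℝ) (a : Fin N → E) (ζ : E) : ℝ := c * ∏ j, ‖ζ - a j‖

/-- its logarithm -/
noncomputable def u0 {N : ℕ} (c : ℝ) (a : Fin N → E) (ζ : E) : EReal :=
  ENNReal.log (ENNReal.ofReal (x0 c a ζ))

lemma continuous_x0 {N : ℕ} (c : ℝ) (a : Fin N → E) : Continuous (x0 c a) := by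
  unfold x0
  fun_prop

lemma continuous_u0 {N : ℕ} (c : ℝ) (a : Fin N → E) : Continuous (u0 c a) :=
  ENNReal.continuous_log.comp (ENNReal.continuous_ofReal.comp (continuous_x0 c a))

lemma x0_nonneg {N : ℕ} {c : ℝ} (hc : 0 < c) (a : Fin N → E) (ζ : E) : 0 ≤ x0 c a ζ := by
  unfold x0
  positivity

lemma At_u0 {N : ℕ} {c : ℝ} (hc : 0 < c) (a : Fin N → E) {z : E} (hz : x0 c a z < 1) :
    At (u0 c a) z := by
  refine ⟨(continuous_u0 c a).upperSemicontinuous z, ?_, fun h hh h0 => ?_⟩
  · unfold u0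
    rw [ENNReal.log_lt_zero_iff]
    exact ENNReal.ofReal_lt_one.2 hz
  · rcases (x0_nonneg hc a z).eq_or_lt with he | hpos
    · have h1 : u0 c a z = ⊥ := by
        unfold u0
        rw [← he, ENNReal.ofReal_zero, ENNReal.log_zero]
      rw [h1]
      refine Eventually.of_forall fun r => ?_
      rw [EReal.neg_bot, EReal.toENNReal_top, ENNReal.mul_top]
      · exact le_top
      · rw [Ne, ENNReal.ofReal_eq_zero]
        have := Real.pi_pos
        linarith
    · choose ℓ hℓ1 hℓ2 using fun j => exists_dual_vector'' ℂ (z - a j)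
      set g : ℂ → ℂ := fun τ => (c : ℂ) * ∏ j, ℓ j (h τ - a j) with hg
      have hgan : AnalyticAt ℂ g 0 := by
        refine analyticAt_const.mul ?_
        refine Finset.analyticAt_fun_prod _ fun j _ => ?_
        exact ((ℓ j).analyticAt _).fun_comp (hh.sub analyticAt_const)
      have hg0 : g 0 = (x0 c a z : ℝ) := by
        simp only [hg, h0, x0]
        rw [Complex.ofReal_mul, Complex.ofReal_prod]
        congr 1
        refine Finset.prod_congr rfl fun j _ => ?_
        exact hℓ2 j
      have hgle : ∀ τ, ‖g τ‖ ≤ x0 c a (h τ) := by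
        intro τ
        simp only [hg, x0]
        rw [norm_mul, Complex.norm_real, Real.norm_eq_abs, abs_of_pos hc, norm_prod]
        gcongr with j _
        exact ((ℓ j).le_opNorm _).trans (mul_le_of_le_one_left (norm_nonneg _) (hℓ1 j))
      have hev : ∀ᶠ τ in 𝓝 (0 : ℂ), AnalyticAt ℂ g τ ∧ g τ ≠ 0 ∧ x0 c a (h τ) < 1 := by
        refine hgan.eventually_analyticAt.and (Eventually.and ?_ ?_)
        · refine hgan.continuousAt.eventually_ne ?_
          rw [hg0]
          exact_mod_cast hpos.ne'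
        · have h3 : ContinuousAt (fun τ => x0 c a (h τ)) 0 :=
            (continuous_x0 c a).continuousAt.comp hh.continuousAt
          exact h3.eventually (Iio_mem_nhds (show x0 c a (h 0) < 1 by rw [h0]; exact hz))
      obtain ⟨ε, hε, hb⟩ := Metric.eventually_nhds_iff.1 hev
      have h2 : ∀ᶠ r : ℝ in 𝓝[>] 0, r < ε :=
        eventually_nhdsWithin_of_eventually_nhds (Iio_mem_nhds hε)
      filter_upwards [h2, self_mem_nhdsWithin] with r hr (hr0 : 0 < r)
      have hball : ∀ τ ∈ Metric.closedBall (0 : ℂ) |r|, AnalyticAt ℂ g τ ∧ g τ ≠ 0 ∧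
          x0 c a (h τ) < 1 := by
        intro τ hτ
        refine hb ?_
        rw [abs_of_pos hr0, Metric.mem_closedBall] at hτ
        exact hτ.trans_lt hr
      have hmem : ∀ θ, circleMap 0 r θ ∈ Metric.closedBall (0 : ℂ) |r| := by
        intro θ
        rw [Metric.mem_closedBall, dist_zero_right, norm_circleMap_zero]
      have hJ : Real.circleAverage (Real.log ‖g ·‖) 0 r = Real.log ‖g 0‖ :=
        AnalyticOnNhd.circleAverage_log_norm_of_ne_zero (fun τ hτ => (hball τ hτ).1)
          fun τ hτ => (hball τ hτ).2.1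
      have hcont : Continuous fun θ => - Real.log ‖g (circleMap 0 r θ)‖ := by
        refine continuous_iff_continuousAt.2 fun θ => ?_
        have h3 : ContinuousAt (fun θ => g (circleMap 0 r θ)) θ :=
          ContinuousAt.comp (f := fun θ => circleMap 0 r θ) (g := g) (hball _ (hmem θ)).1.continuousAt
            (continuous_circleMap 0 r).continuousAt
        exact (h3.norm.log (norm_ne_zero_iff.2 (hball _ (hmem θ)).2.1)).neg
      have hnn : ∀ θ, 0 ≤ - Real.log ‖g (circleMap 0 r θ)‖ := by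
        intro θ
        rw [neg_nonneg]
        exact Real.log_nonpos (norm_nonneg _) ((hgle _).trans (hball _ (hmem θ)).2.2.le)
      have hle : ∀ θ, (-(u0 c a (h (circleMap 0 r θ)))).toENNReal ≤
          ENNReal.ofReal (- Real.log ‖g (circleMap 0 r θ)‖) := by
        intro θ
        have hgp : 0 < ‖g (circleMap 0 r θ)‖ := norm_pos_iff.2 (hball _ (hmem θ)).2.1
        have h5 : 0 < x0 c a (h (circleMap 0 r θ)) := hgp.trans_le (hgle _)
        unfold u0
        rw [ENNReal.log_ofReal_of_pos h5, ← EReal.coe_neg, EReal.toENNReal_of_ne_top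
          (EReal.coe_ne_top _), EReal.toReal_coe]
        exact ENNReal.ofReal_le_ofReal (neg_le_neg (Real.log_le_log hgp (hgle _)))
      refine (lintegral_mono hle).trans (le_of_eq ?_)
      rw [← ofReal_integral_eq_lintegral_ofReal ?_ (Eventually.of_forall hnn)]
      · have h6 : ∫ θ in Ioc 0 (2 * Real.pi), - Real.log ‖g (circleMap 0 r θ)‖ =
            2 * Real.pi * (- Real.log (x0 c a z)) := by
          rw [← intervalIntegral.integral_of_le (by positivity), intervalIntegral.integral_neg]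
          rw [Real.circleAverage_def, smul_eq_mul] at hJ
          have h7 : ‖g 0‖ = x0 c a z := by
            rw [hg0, Complex.norm_real, Real.norm_eq_abs, abs_of_pos hpos]
          rw [h7] at hJ
          have hpi := Real.pi_pos
          field_simp at hJ
          linarith
        rw [h6, ENNReal.ofReal_mul (by positivity)]
        congr 1
        unfold u0
        rw [ENNReal.log_ofReal_of_pos hpos, ← EReal.coe_neg, EReal.toENNReal_of_ne_top
          (EReal.coe_ne_top _), EReal.toReal_coe]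
      · exact (hcont.integrableOn_Icc (a := 0) (b := 2 * Real.pi)).mono_set Ioc_subset_Icc_self

end Pool.Agent.Zk71.Gr
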