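import Pool.Agent.Zk71.Gr.A

set_option autoImplicit false

open MeasureTheory Filter Topology Set

namespace Pool.Agent.Zk71.Gr

variable {E : Type*} [NormedAddCommGroup E] [NormedSpace ℂ E]

lemma exists_neg_bound {Ω : Set E} {ρ : E → EReal} (hρ : IsNegPSH Ω ρ) {F : Set E}
    (hF : IsCompact F) (hFΩ : F ⊆ Ω) : ∃ m : ℝ, 0 < m ∧ ∀ z ∈ F, ρ z ≤ ((-m : ℝ) : EReal) := by
  refine hF.induction_on (p := fun s => ∃ m : ℝ, 0 < m ∧ ∀ z ∈ s, ρ z ≤ ((-m : ℝ) : EReal))
    ⟨1, one_pos, by simp⟩ ?_ ?_ ?_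
  · rintro s t hst ⟨m, hm, h⟩
    exact ⟨m, hm, fun z hz => h z (hst hz)⟩
  · rintro s t ⟨m, hm, h⟩ ⟨m', hm', h'⟩
    refine ⟨min m m', lt_min hm hm', ?_⟩
    rintro z (hz | hz)
    · refine (h z hz).trans ?_
      exact_mod_cast neg_le_neg (min_le_left _ _)
    · refine (h' z hz).trans ?_
      exact_mod_cast neg_le_neg (min_le_right _ _)
  · intro z hz
    obtain ⟨husc, hneg, -⟩ := hρ z (hFΩ hz)
    obtain ⟨t, ht1, ht2⟩ := EReal.lt_iff_exists_real_btwn.1 hneg
    have ht2' : t < 0 := by exact_mod_cast ht2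
    refine ⟨{w | ρ w < (t : EReal)}, mem_nhdsWithin_of_mem_nhds (husc t ht1), -t, by linarith, ?_⟩
    intro w hw
    rw [neg_neg]
    exact le_of_lt hw

/-- the data attached to a bounded hyperconvex domain containing the origin -/
structure Data (Ω : Set E) (N : ℕ) where
  /-- exhaustion -/
  ρ : E → EReal
  /-- outer radius -/
  R : ℝ
  /-- inner radius -/
  r : ℝ
  /-- normalising constant -/
  c : ℝ
  /-- slope -/
  K : ℝ
  hopen : IsOpen Ω
  hρ : IsNegPSH Ω ρ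
  hex : ∀ c : ℝ, 0 < c → ∃ K, IsCompact K ∧ K ⊆ Ω ∧ ∀ z ∈ Ω \ K, ((-c : ℝ) : EReal) ≤ ρ z
  hR : 0 < R
  hΩR : ∀ z ∈ Ω, ‖z‖ ≤ R
  hr : 0 < r
  hrΩ : Metric.closedBall 0 r ⊆ Ω
  hc : 0 < c
  hK : 0 < K
  lt_one : ∀ a : Fin N → E, (∀ j, ‖a j‖ ≤ r / 4) → ∀ z ∈ Ω, x0 c a z < 1
  shell : ∀ a : Fin N → E, (∀ j, ‖a j‖ ≤ r / 4) → ∀ z, r / 2 ≤ ‖z‖ → ‖z‖ ≤ r →
    (K : EReal) * ρ z ≤ u0 c a z

lemma exists_data [ProperSpace E] {Ω : Set E} (hΩ : IsHyperconvex Ω) (h0 : (0 : E) ∈ Ω) (N : ℕ) :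
    Nonempty (Data Ω N) := by
  obtain ⟨ρ, hρ, hex⟩ := hΩ.exhaustion
  obtain ⟨R, hR⟩ := hΩ.isBounded.exists_norm_le
  obtain ⟨ε, hε, hball⟩ := Metric.isOpen_iff.1 hΩ.isOpen 0 h0
  set r : ℝ := ε / 2 with hr
  have hrpos : 0 < r := by positivity
  have hrΩ : Metric.closedBall (0 : E) r ⊆ Ω := fun z hz => hball (by
    rw [Metric.mem_closedBall] at hz
    rw [Metric.mem_ball]
    linarith)
  set R' : ℝ := |R| + 2 * r + 1 with hR'
  have hR'1 : 1 ≤ R' := by
    have := abs_nonneg R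
    linarith
  have hR'0 : 0 < R' := by linarith
  set c : ℝ := 1 / (2 * R' ^ N) with hc
  have hcpos : 0 < c := by positivity
  have hlt : ∀ a : Fin N → E, (∀ j, ‖a j‖ ≤ r / 4) → ∀ z, ‖z‖ ≤ |R| + r → x0 c a z ≤ 1 / 2 := by
    intro a ha z hz
    unfold x0
    have h1 : ∏ j, ‖z - a j‖ ≤ R' ^ N := by
      calc ∏ j, ‖z - a j‖ ≤ ∏ _j : Fin N, R' := by
            refine Finset.prod_le_prod (fun j _ => norm_nonneg _) fun j _ => ?_
            refine (norm_sub_le _ _).trans ?_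
            linarith [ha j]
        _ = R' ^ N := by rw [Finset.prod_const, Finset.card_univ, Fintype.card_fin]
    calc c * ∏ j, ‖z - a j‖ ≤ c * R' ^ N := by gcongr
      _ = 1 / 2 := by
        rw [hc]
        field_simp
  -- the shell
  set F : Set E := Metric.closedBall 0 r \ Metric.ball 0 (r / 2) with hF
  have hFc : IsCompact F := (isCompact_closedBall _ _).diff Metric.isOpen_ball
  obtain ⟨m, hm, hmρ⟩ := exists_neg_bound hρ hFc (fun z hz => hrΩ hz.1)
  set t : ℝ := c * (r / 4) ^ N with ht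
  have htpos : 0 < t := by positivity
  have hx0 : ∀ a : Fin N → E, (∀ j, ‖a j‖ ≤ r / 4) → ∀ z, r / 2 ≤ ‖z‖ → t ≤ x0 c a z := by
    intro a ha z hz
    unfold x0
    rw [ht]
    gcongr
    calc (r / 4) ^ N = ∏ _j : Fin N, (r / 4) := by
          rw [Finset.prod_const, Finset.card_univ, Fintype.card_fin]
      _ ≤ ∏ j, ‖z - a j‖ := by
        refine Finset.prod_le_prod (fun j _ => by positivity) fun j _ => ?_
        have := norm_sub_norm_le z (a j)
        linarith [ha j]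
  set K : ℝ := max (-Real.log t) 1 / m with hK
  have hKpos : 0 < K := div_pos (lt_max_of_lt_right one_pos) hm
  refine ⟨⟨ρ, |R| + r, r, c, K, hΩ.isOpen, hρ, hex, by positivity, fun z hz => ?_, hrpos, hrΩ, hcpos,
    hKpos, fun a ha z hz => ?_, fun a ha z hz1 hz2 => ?_⟩⟩
  · exact (hR z hz).trans ((le_abs_self R).trans (by linarith))
  · have h1 : ‖z‖ ≤ |R| + r := (hR z hz).trans ((le_abs_self R).trans (by linarith))
    exact (hlt a ha z h1).trans_lt (by norm_num)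
  · have hzF : z ∈ F := by
      refine ⟨by simpa using hz2, ?_⟩
      rw [Metric.mem_ball, dist_zero_right, not_lt]
      exact hz1
    have hK0 : (0 : EReal) ≤ (K : EReal) := by exact_mod_cast hKpos.le
    calc (K : EReal) * ρ z ≤ (K : EReal) * ((-m : ℝ) : EReal) :=
          mul_le_mul_of_nonneg_left (hmρ z hzF) hK0
      _ = ((- max (-Real.log t) 1 : ℝ) : EReal) := by
          rw [← EReal.coe_mul]
          congr 1
          rw [hK]
          field_simp
      _ ≤ ((Real.log t : ℝ) : EReal) := by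
          have : - max (-Real.log t) 1 ≤ Real.log t := by
            have := le_max_left (-Real.log t) 1
            linarith
          exact_mod_cast this
      _ = ENNReal.log (ENNReal.ofReal t) := (ENNReal.log_ofReal_of_pos htpos).symm
      _ ≤ u0 c a z := by
          unfold u0
          rw [ENNReal.log_le_log_iff]
          exact ENNReal.ofReal_le_ofReal (hx0 a ha z hz1)

namespace Data

variable {Ω : Set E} {N : ℕ} (D : Data Ω N)

open Classical in
/-- the explicit competitor -/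
noncomputable def L (a : Fin N → E) (z : E) : EReal :=
  if ‖z‖ < D.r then u0 D.c a z else max (u0 D.c a z) ((D.K : EReal) * D.ρ z)

lemma L_eq_near {a : Fin N → E} {z : E} (hz : ‖z‖ < D.r) : u0 D.c a =ᶠ[𝓝 z] D.L a := by
  have h1 : ∀ᶠ w in 𝓝 z, ‖w‖ < D.r := continuous_norm.continuousAt.eventually (Iio_mem_nhds hz)
  filter_upwards [h1] with w hw
  unfold L
  rw [if_pos hw]

lemma L_eq_far {a : Fin N → E} (ha : ∀ j, ‖a j‖ ≤ D.r / 4) {z : E} (hz : D.r / 2 ≤ ‖z‖) :
    D.L a z = max (u0 D.c a z) ((D.K : EReal) * D.ρ z) := by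
  unfold L
  split_ifs with h
  · exact (max_eq_left (D.shell a ha z hz h.le)).symm
  · rfl

lemma at_L {a : Fin N → E} (ha : ∀ j, ‖a j‖ ≤ D.r / 4) {z : E} (hz : z ∈ Ω) : At (D.L a) z := by
  have h1 : At (u0 D.c a) z := At_u0 D.hc a (D.lt_one a ha z hz)
  rcases lt_or_ge ‖z‖ D.r with h | h
  · exact h1.congr (D.L_eq_near h)
  · have h2 : At (fun w => (D.K : EReal) * D.ρ w) z := At.scale (D.hρ z hz) D.hK
    refine (h1.max h2).congr ?_
    have hr := D.hr
    have h3 : ∀ᶠ w in 𝓝 z, D.r / 2 < ‖w‖ :=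
      continuous_norm.continuousAt.eventually (Ioi_mem_nhds (by linarith))
    filter_upwards [h3] with w hw
    exact (D.L_eq_far ha hw.le).symm

lemma L_ge_u0 (a : Fin N → E) (z : E) : u0 D.c a z ≤ D.L a z := by
  unfold L
  split_ifs
  · exact le_rfl
  · exact le_max_left _ _

lemma poles_u0 (a : Fin N → E) : HasPoles (range a) (u0 D.c a) := by
  classical
  rintro _ ⟨j, rfl⟩
  -- the other factors are bounded near `a j`
  have h1 : ContinuousAt (fun w => D.c * ∏ i ∈ Finset.univ.erase j, ‖w - a i‖) (a j) := by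
    fun_prop
  set B : ℝ := D.c * ∏ i ∈ Finset.univ.erase j, ‖a j - a i‖ + 1 with hB
  have hB0 : 0 < B := by
    have := D.hc
    positivity
  have h2 : ∀ᶠ w in 𝓝 (a j), D.c * ∏ i ∈ Finset.univ.erase j, ‖w - a i‖ < B :=
    h1.eventually (Iio_mem_nhds (by simp only [hB]; linarith))
  refine ⟨Real.log B, ?_⟩
  filter_upwards [h2] with w hw
  have h3 : x0 D.c a w = (D.c * ∏ i ∈ Finset.univ.erase j, ‖w - a i‖) * ‖w - a j‖ := by
    unfold x0
    rw [← Finset.mul_prod_erase Finset.univ _ (Finset.mem_univ j)]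
    ring
  unfold u0
  rw [h3, ← ENNReal.log_ofReal_of_pos hB0, ← ENNReal.log_mul_add, ENNReal.log_le_log_iff,
    mul_comm (ENNReal.ofReal _), ← ENNReal.ofReal_mul hB0.le]
  refine ENNReal.ofReal_le_ofReal ?_
  gcongr

end Data

end Pool.Agent.Zk71.Gr
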