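import Pool.Agent.Zk71.Gr.B

set_option autoImplicit false

open MeasureTheory Filter Topology Set

namespace Pool.Agent.Zk71.Gr

variable {E : Type*} [NormedAddCommGroup E] [NormedSpace ℂ E]

namespace Data

variable {Ω : Set E} {N : ℕ} (D : Data Ω N)

include D

lemma compl_nonempty [Nontrivial E] : Ωᶜ.Nonempty := by
  by_contra hcon
  rw [not_nonempty_iff_eq_empty, compl_empty_iff] at hcon
  obtain ⟨x, hx⟩ := exists_ne (0 : E)
  have h1 : ‖((((D.R + 1) / ‖x‖ : ℝ) : ℂ)) • x‖ = D.R + 1 := by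
    rw [norm_smul, Complex.norm_real, Real.norm_eq_abs, abs_of_nonneg, div_mul_cancel₀]
    · exact norm_ne_zero_iff.2 hx
    · have := D.hR
      positivity
  have hall : ∀ y, y ∈ Ω := fun y => hcon.symm ▸ mem_univ y
  have h2 := D.hΩR ((((D.R + 1) / ‖x‖ : ℝ) : ℂ) • x) (hall _)
  rw [h1] at h2
  linarith

lemma d_pos [Nontrivial E] {z : E} (hz : z ∈ Ω) : 0 < Metric.infDist z Ωᶜ := by
  rw [← (D.hopen.isClosed_compl).notMem_iff_infDist_pos D.compl_nonempty]
  exact fun h => h hz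

lemma mem_of_d_pos {z : E} (hz : 0 < Metric.infDist z Ωᶜ) : z ∈ Ω := by
  by_contra hcon
  rw [Metric.infDist_zero_of_mem hcon] at hz
  exact lt_irrefl _ hz

lemma mem_of_dist {z w : E} (h : dist w z < Metric.infDist z Ωᶜ) : w ∈ Ω := by
  by_contra hcon
  have := Metric.infDist_le_dist_of_mem (x := z) (s := Ωᶜ) hcon
  rw [dist_comm] at this
  linarith

/-- the key comparison: a holomorphic map which fixes the poles and moves the points of `Ω` by
little changes the Green function by little -/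
lemma key [Nontrivial E] [ProperSpace E] {η : ℝ} (hη : 0 < η) : ∃ δ₀ : ℝ, 0 < δ₀ ∧
    ∀ δ : ℝ, 0 < δ → δ ≤ δ₀ → ∀ a : Fin N → E, (∀ j, ‖a j‖ ≤ D.r / 4) → ∀ φ : E → E, (∀ z, AnalyticAt ℂ φ z) →
    (∀ j, φ (a j) = a j) → (∀ z ∈ Ω, ‖φ z - z‖ < δ) → ∀ z ∈ Ω, δ < Metric.infDist z Ωᶜ →
    green Ω (range a) (φ z) ≤ green Ω (range a) z + (η : EReal) := by
  obtain ⟨Kc, hKc, hKcΩ, hKcρ⟩ := D.hex (η / D.K) (div_pos hη D.hK)
  set K₁ : Set E := Kc ∪ Metric.closedBall 0 D.r with hK₁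
  have hK₁c : IsCompact K₁ := hKc.union (isCompact_closedBall _ _)
  have hK₁Ω : K₁ ⊆ Ω := union_subset hKcΩ D.hrΩ
  have hK₁ne : K₁.Nonempty := ⟨0, Or.inr (by simpa using D.hr.le)⟩
  obtain ⟨z₀, hz₀, hmin⟩ := hK₁c.exists_isMinOn hK₁ne
    (Metric.continuous_infDist_pt Ωᶜ).continuousOn
  have hd₀ : 0 < Metric.infDist z₀ Ωᶜ := D.d_pos (hK₁Ω hz₀)
  refine ⟨Metric.infDist z₀ Ωᶜ / 4, by positivity, fun δ hδ0 hδ => ?_⟩
  have hdK : ∀ z ∈ K₁, 4 * δ ≤ Metric.infDist z Ωᶜ := by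
    intro z hz
    have : Metric.infDist z₀ Ωᶜ ≤ Metric.infDist z Ωᶜ := hmin hz
    linarith
  have hLge : ∀ a : Fin N → E, (∀ j, ‖a j‖ ≤ D.r / 4) → ∀ z ∈ Ω, Metric.infDist z Ωᶜ < 2 * δ →
      ((-η : ℝ) : EReal) ≤ D.L a z := by
    intro a ha z hz hd
    have hzK : z ∉ K₁ := fun h => by
      have := hdK z h
      linarith
    have h1 : D.r < ‖z‖ := by
      by_contra hcon
      push Not at hcon
      exact hzK (Or.inr (by simpa using hcon))
    have h2 : z ∉ Kc := fun h => hzK (Or.inl h)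
    have h3 := hKcρ z ⟨hz, h2⟩
    have hr := D.hr
    rw [D.L_eq_far ha (by linarith)]
    refine le_trans ?_ (le_max_right _ _)
    have hK0 : (0 : EReal) ≤ (D.K : EReal) := by exact_mod_cast D.hK.le
    calc ((-η : ℝ) : EReal) = (D.K : EReal) * ((-(η / D.K) : ℝ) : EReal) := by
          rw [← EReal.coe_mul]
          congr 1
          have := D.hK.ne'
          field_simp
      _ ≤ (D.K : EReal) * D.ρ z := mul_le_mul_of_nonneg_left h3 hK0
  intro a ha φ hφ hfix hmove z hz hdz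
  unfold green
  refine sSup_le ?_
  rintro _ ⟨u, hu, hpole, rfl⟩
  classical
  set v : E → EReal := fun w => if δ < Metric.infDist w Ωᶜ then
    max (u (φ w) - (η : EReal)) (D.L a w) else D.L a w with hv
  have hmem : ∀ w, δ < Metric.infDist w Ωᶜ → φ w ∈ Ω := by
    intro w hw
    refine D.mem_of_dist (z := w) ?_
    rw [dist_eq_norm]
    exact (hmove w (D.mem_of_d_pos (hδ0.trans hw))).trans hw
  have hvpsh : IsNegPSH Ω v := by
    intro w hw
    rcases lt_or_ge δ (Metric.infDist w Ωᶜ) with h | h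
    · have h1 : At (fun w => u (φ w) - (η : EReal)) w :=
        At.sub (At.comp (hu (φ w) (hmem w h)) (hφ w)) hη.le
      refine (h1.max (D.at_L ha hw)).congr ?_
      have h2 : ∀ᶠ y in 𝓝 w, δ < Metric.infDist y Ωᶜ :=
        (Metric.continuous_infDist_pt Ωᶜ).continuousAt.eventually (Ioi_mem_nhds h)
      filter_upwards [h2] with y hy
      simp only [hv]
      rw [if_pos hy]
    · refine (D.at_L ha hw).congr ?_
      have h2 : ∀ᶠ y in 𝓝 w, Metric.infDist y Ωᶜ < 2 * δ :=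
        (Metric.continuous_infDist_pt Ωᶜ).continuousAt.eventually (Iio_mem_nhds (by linarith))
      filter_upwards [h2, D.hopen.mem_nhds hw] with y hy hyΩ
      simp only [hv]
      split_ifs with h3
      · refine (max_eq_right ?_).symm
        refine le_trans ?_ (hLge a ha y hyΩ hy)
        have h4 : u (φ y) < 0 := (hu (φ y) (hmem y h3)).2.1
        calc u (φ y) - (η : EReal) ≤ 0 - (η : EReal) := EReal.sub_le_sub h4.le le_rfl
          _ = ((-η : ℝ) : EReal) := by rw [zero_sub, EReal.coe_neg]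
      · rfl
  have hvpole : HasPoles (range a) v := by
    rintro _ ⟨j, rfl⟩
    obtain ⟨C₁, hC₁⟩ := hpole (a j) ⟨j, rfl⟩
    obtain ⟨C₂, hC₂⟩ := D.poles_u0 a (a j) ⟨j, rfl⟩
    have hr := D.hr
    have haj : ‖a j‖ < D.r := (ha j).trans_lt (by linarith)
    have hd : δ < Metric.infDist (a j) Ωᶜ := by
      have := hdK (a j) (Or.inr (by simpa using haj.le))
      linarith
    have h2 : ∀ᶠ y in 𝓝 (a j), δ < Metric.infDist y Ωᶜ :=
      (Metric.continuous_infDist_pt Ωᶜ).continuousAt.eventually (Ioi_mem_nhds hd)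
    -- Lipschitz bound at the pole
    have hder := (hφ (a j)).differentiableAt
    obtain ⟨M, hM0, hM⟩ : ∃ M : ℝ, 0 < M ∧ ∀ᶠ y in 𝓝 (a j), ‖φ y - a j‖ ≤ M * ‖y - a j‖ := by
      obtain ⟨M, hM0, hM⟩ := hder.hasFDerivAt.isBigO_sub.exists_pos
      refine ⟨M, hM0, ?_⟩
      filter_upwards [hM.bound] with y hy
      rwa [hfix j] at hy
    have hcont : ∀ᶠ y in 𝓝 (a j), u (φ y) ≤ ENNReal.log (ENNReal.ofReal ‖φ y - a j‖) + (C₁ : EReal) := by
      have : Tendsto φ (𝓝 (a j)) (𝓝 (a j)) := by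
        have := (hφ (a j)).continuousAt.tendsto
        rwa [hfix j] at this
      exact this.eventually hC₁
    refine ⟨max (Real.log M + C₁) C₂, ?_⟩
    filter_upwards [h2, hM, hcont, hC₂, D.L_eq_near haj] with y h3 h4 h5 h6 h7
    simp only [hv]
    rw [if_pos h3, max_le_iff]
    constructor
    · calc u (φ y) - (η : EReal) ≤ u (φ y) - ((0 : ℝ) : EReal) :=
            EReal.sub_le_sub le_rfl (by exact_mod_cast hη.le)
        _ = u (φ y) := by simp
        _ ≤ ENNReal.log (ENNReal.ofReal ‖φ y - a j‖) + (C₁ : EReal) := h5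
        _ ≤ ENNReal.log (ENNReal.ofReal (M * ‖y - a j‖)) + (C₁ : EReal) := by
            gcongr
        _ = ENNReal.log (ENNReal.ofReal ‖y - a j‖) + ((Real.log M + C₁ : ℝ) : EReal) := by
            rw [ENNReal.ofReal_mul hM0.le, ENNReal.log_mul_add, ENNReal.log_ofReal_of_pos hM0,
              EReal.coe_add, add_comm (Real.log M : EReal), add_assoc]
        _ ≤ _ := by
            gcongr
            exact_mod_cast le_max_left _ _
    · rw [← h7]
      refine h6.trans ?_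
      gcongr
      exact_mod_cast le_max_right _ _
  have h1 : v z ≤ sSup {t : EReal | ∃ u : E → EReal, IsNegPSH Ω u ∧ HasPoles (range a) u ∧ u z = t} :=
    le_sSup ⟨v, hvpsh, hvpole, rfl⟩
  have h2 : u (φ z) - (η : EReal) ≤ v z := by
    simp only [hv]
    rw [if_pos hdz]
    exact le_max_left _ _
  exact (EReal.sub_le_iff_le_add (Or.inl (EReal.coe_ne_bot _)) (Or.inl (EReal.coe_ne_top _))).1
    (h2.trans h1)

/-- lower bound -/
lemma green_ge {a : Fin N → E} (ha : ∀ j, ‖a j‖ ≤ D.r / 4) (z : E) :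
    u0 D.c a z ≤ green Ω (range a) z := by
  refine (D.L_ge_u0 a z).trans (le_sSup ⟨D.L a, fun w hw => D.at_L ha hw, ?_, rfl⟩)
  rintro _ ⟨j, rfl⟩
  obtain ⟨C₂, hC₂⟩ := D.poles_u0 a (a j) ⟨j, rfl⟩
  have hr := D.hr
  have haj : ‖a j‖ < D.r := (ha j).trans_lt (by linarith)
  refine ⟨C₂, ?_⟩
  filter_upwards [hC₂, D.L_eq_near haj] with y h6 h7
  rwa [← h7]

end Data

lemma green_le {Ω S : Set E} {z : E} (hz : z ∈ Ω) : green Ω S z ≤ 0 := by
  refine sSup_le ?_
  rintro _ ⟨u, hu, -, rfl⟩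
  exact (hu z hz).2.1.le

end Pool.Agent.Zk71.Gr
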