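import Pool.Agent.Zk71.Gr.C

set_option autoImplicit false

open MeasureTheory Filter Topology Set

namespace Pool.Agent.Zk71.Gr

variable {E : Type*} [NormedAddCommGroup E] [NormedSpace ℂ E]

namespace Data

variable {Ω : Set E} {N : ℕ} (D : Data Ω N)

include D

/-- equicontinuity and lower bound of the Green functions on compact sets off the origin -/
lemma equi [Nontrivial E] [ProperSpace E] {K : Set E} (hK : IsCompact K) (hKΩ : K ⊆ Ω)
    (h0 : (0 : E) ∉ K) : ∃ s : ℝ, 0 < s ∧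
    (∀ η : ℝ, 0 < η → ∃ δ : ℝ, 0 < δ ∧ ∀ a : Fin N → E, (∀ j, ‖a j‖ ≤ s) → ∀ z ∈ K, ∀ w ∈ K,
      ‖w - z‖ < δ → green Ω (range a) w ≤ green Ω (range a) z + (η : EReal)) ∧
    (∃ T : ℝ, ∀ a : Fin N → E, (∀ j, ‖a j‖ ≤ s) → ∀ z ∈ K,
      (T : EReal) ≤ green Ω (range a) z) := by
  rcases K.eq_empty_or_nonempty with rfl | hne
  · exact ⟨1, one_pos, fun η _ => ⟨1, one_pos, by simp⟩, 0, by simp⟩
  -- lower bounds for the norm and for the distance to the boundary
  obtain ⟨z₁, hz₁, hmin₁⟩ := hK.exists_isMinOn hne continuous_norm.continuousOn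
  obtain ⟨z₂, hz₂, hmin₂⟩ := hK.exists_isMinOn hne (Metric.continuous_infDist_pt Ωᶜ).continuousOn
  set κ : ℝ := ‖z₁‖ with hκ
  have hκ0 : 0 < κ := norm_pos_iff.2 fun h => h0 (h ▸ hz₁)
  have hκK : ∀ z ∈ K, κ ≤ ‖z‖ := fun z hz => hmin₁ hz
  set d : ℝ := Metric.infDist z₂ Ωᶜ with hd
  have hd0 : 0 < d := D.d_pos (hKΩ hz₂)
  have hdK : ∀ z ∈ K, d ≤ Metric.infDist z Ωᶜ := fun z hz => hmin₂ hz
  have hr := D.hr
  set s : ℝ := min (D.r / 4) (κ / 2) with hs
  have hs0 : 0 < s := lt_min (by positivity) (by positivity)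
  have hs1 : s ≤ D.r / 4 := min_le_left _ _
  have hs2 : s ≤ κ / 2 := min_le_right _ _
  refine ⟨s, hs0, fun η hη => ?_, ?_⟩
  · obtain ⟨δ₀, hδ₀, hkey⟩ := D.key hη
    set δ₁ : ℝ := min δ₀ (d / 2) with hδ₁
    have hδ₁0 : 0 < δ₁ := lt_min hδ₀ (by positivity)
    have hδ₁1 : δ₁ ≤ δ₀ := min_le_left _ _
    have hδ₁2 : δ₁ ≤ d / 2 := min_le_right _ _
    set p : ℝ := (κ / 2) ^ N with hp
    have hp0 : 0 < p := by positivity
    set q : ℝ := (D.R + s) ^ N with hq
    have hR := D.hR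
    have hq0 : 0 < q := by positivity
    refine ⟨δ₁ * (p / q), by positivity, fun a ha z hz w hw hwz => ?_⟩
    obtain ⟨ℓ, hℓ1, hℓ2⟩ := exists_dual_vector'' ℂ z
    set P : E → ℂ := fun ζ => ∏ j, ℓ (ζ - a j) with hP
    have hPz : p ≤ ‖P z‖ := by
      simp only [hP]
      rw [norm_prod, hp]
      calc (κ / 2) ^ N = ∏ _j : Fin N, (κ / 2) := by
            rw [Finset.prod_const, Finset.card_univ, Fintype.card_fin]
        _ ≤ ∏ j, ‖ℓ (z - a j)‖ := by
            refine Finset.prod_le_prod (fun j _ => by positivity) fun j _ => ?_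
            rw [map_sub, hℓ2]
            have h1 := norm_sub_norm_le ((‖z‖ : ℂ)) (ℓ (a j))
            have h2 : ‖((‖z‖ : ℝ) : ℂ)‖ = ‖z‖ := by
              rw [Complex.norm_real, norm_norm]
            have h3 : ‖ℓ (a j)‖ ≤ ‖a j‖ :=
              (ℓ.le_opNorm _).trans (mul_le_of_le_one_left (norm_nonneg _) hℓ1)
            have h4 := ha j
            have h5 := hκK z hz
            rw [h2] at h1
            refine le_trans ?_ h1
            linarith
    have hPz0 : P z ≠ 0 := norm_pos_iff.1 (hp0.trans_le hPz)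
    have hPq : ∀ ζ ∈ Ω, ‖P ζ‖ ≤ q := by
      intro ζ hζ
      simp only [hP]
      rw [norm_prod, hq]
      calc ∏ j, ‖ℓ (ζ - a j)‖ ≤ ∏ _j : Fin N, (D.R + s) := by
            refine Finset.prod_le_prod (fun j _ => norm_nonneg _) fun j _ => ?_
            refine ((ℓ.le_opNorm _).trans (mul_le_of_le_one_left (norm_nonneg _) hℓ1)).trans ?_
            refine (norm_sub_le _ _).trans ?_
            linarith [ha j, D.hΩR ζ hζ]
        _ = (D.R + s) ^ N := by rw [Finset.prod_const, Finset.card_univ, Fintype.card_fin]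
    set φ : E → E := fun ζ => ζ + (P ζ / P z) • (w - z) with hφ
    have hφan : ∀ ζ, AnalyticAt ℂ φ ζ := by
      intro ζ
      refine analyticAt_id.add (AnalyticAt.smul ?_ analyticAt_const)
      refine AnalyticAt.div_const ?_
      refine Finset.analyticAt_fun_prod _ fun j _ => ?_
      exact (ℓ.analyticAt _).fun_comp (analyticAt_id.sub analyticAt_const)
    have hfix : ∀ j, φ (a j) = a j := by
      intro j
      have : P (a j) = 0 := by
        simp only [hP]
        exact Finset.prod_eq_zero (Finset.mem_univ j) (by rw [sub_self, map_zero])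
      simp only [hφ]
      rw [this, zero_div, zero_smul, add_zero]
    have hφz : φ z = w := by
      simp only [hφ]
      rw [div_self hPz0, one_smul, add_sub_cancel]
    have hmove : ∀ ζ ∈ Ω, ‖φ ζ - ζ‖ < δ₁ := by
      intro ζ hζ
      simp only [hφ]
      rw [add_sub_cancel_left, norm_smul, norm_div]
      have h1 : ‖P ζ‖ / ‖P z‖ ≤ q / p := by
        gcongr
        exact hPq ζ hζ
      calc ‖P ζ‖ / ‖P z‖ * ‖w - z‖ ≤ q / p * ‖w - z‖ := by gcongr
        _ < q / p * (δ₁ * (p / q)) := by gcongr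
        _ = δ₁ := by field_simp
    have h6 := hkey δ₁ hδ₁0 hδ₁1 a (fun j => (ha j).trans hs1) φ hφan hfix hmove z (hKΩ hz)
      (by have := hdK z hz; linarith)
    rwa [hφz] at h6
  · set t : ℝ := D.c * (κ / 2) ^ N with ht
    have hc := D.hc
    have htpos : 0 < t := by positivity
    refine ⟨Real.log t, fun a ha z hz => ?_⟩
    refine le_trans ?_ (D.green_ge (fun j => (ha j).trans hs1) z)
    unfold u0
    rw [← ENNReal.log_ofReal_of_pos htpos, ENNReal.log_le_log_iff]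
    refine ENNReal.ofReal_le_ofReal ?_
    unfold x0
    rw [ht]
    gcongr
    calc (κ / 2) ^ N = ∏ _j : Fin N, (κ / 2) := by
          rw [Finset.prod_const, Finset.card_univ, Fintype.card_fin]
      _ ≤ ∏ j, ‖z - a j‖ := by
        refine Finset.prod_le_prod (fun j _ => by positivity) fun j _ => ?_
        have h1 := norm_sub_norm_le z (a j)
        have h5 := hκK z hz
        linarith [ha j]

end Data

/-- real-valued version of the equicontinuity -/
lemma equi_real [Nontrivial E] [ProperSpace E] {Ω : Set E} (hΩ : IsHyperconvex Ω)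
    (h0 : (0 : E) ∈ Ω) (N : ℕ) {K : Set E} (hK : IsCompact K) (hKΩ : K ⊆ Ω \ {0}) :
    ∃ s : ℝ, 0 < s ∧
    (∀ η : ℝ, 0 < η → ∃ δ : ℝ, 0 < δ ∧ ∀ a : Fin N → E, (∀ j, ‖a j‖ ≤ s) → ∀ z ∈ K, ∀ w ∈ K,
      ‖w - z‖ < δ → |(green Ω (range a) w).toReal - (green Ω (range a) z).toReal| ≤ η) ∧
    (∀ a : Fin N → E, (∀ j, ‖a j‖ ≤ s) → ∀ z ∈ K,
      (((green Ω (range a) z).toReal : ℝ) : EReal) = green Ω (range a) z) := by
  obtain ⟨D⟩ := exists_data hΩ h0 N
  have hKΩ' : K ⊆ Ω := fun z hz => (hKΩ hz).1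
  obtain ⟨s, hs, h1, T, hT⟩ := D.equi hK hKΩ' (fun h => (hKΩ h).2 rfl)
  have hfin : ∀ a : Fin N → E, (∀ j, ‖a j‖ ≤ s) → ∀ z ∈ K,
      (((green Ω (range a) z).toReal : ℝ) : EReal) = green Ω (range a) z := by
    intro a ha z hz
    refine EReal.coe_toReal ?_ ?_
    · exact ((green_le (hKΩ' hz)).trans_lt EReal.zero_lt_top).ne
    · exact ((EReal.bot_lt_coe T).trans_le (hT a ha z hz)).ne'
  refine ⟨s, hs, fun η hη => ?_, hfin⟩
  obtain ⟨δ, hδ, h2⟩ := h1 η hη
  refine ⟨δ, hδ, fun a ha z hz w hw hwz => ?_⟩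
  have h3 := h2 a ha z hz w hw hwz
  have h4 := h2 a ha w hw z hz (by rwa [norm_sub_rev])
  rw [← hfin a ha z hz, ← hfin a ha w hw, ← EReal.coe_add, EReal.coe_le_coe_iff] at h3 h4
  rw [abs_le]
  constructor <;> linarith

end Pool.Agent.Zk71.Gr
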