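import Mathlib

set_option autoImplicit false

open MeasureTheory Filter Topology Set

namespace Pool.Agent.Zk71.Gr

variable {E : Type*} [NormedAddCommGroup E] [NormedSpace ℂ E]

/-- `u` is a negative plurisubharmonic function on the open set `Ω`: it is upper semicontinuous and
negative, and its composition with every germ `h` of an analytic disc satisfies the local submean
value inequality `2π (u ∘ h) (0) ≤ ∫ (u ∘ h) (r e^{iθ}) dθ` for all small `r > 0` (written for
`-u`, with values in `[0, ∞]`). -/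
def IsNegPSH (Ω : Set E) (u : E → EReal) : Prop :=
  ∀ z ∈ Ω, UpperSemicontinuousAt u z ∧ u z < 0 ∧
    ∀ h : ℂ → E, AnalyticAt ℂ h 0 → h 0 = z → ∀ᶠ r : ℝ in 𝓝[>] 0,
      ∫⁻ θ in Ioc 0 (2 * Real.pi), (-(u (h (circleMap 0 r θ)))).toENNReal ≤
        ENNReal.ofReal (2 * Real.pi) * (-(u z)).toENNReal

/-- a bounded hyperconvex domain: it has a negative plurisubharmonic exhaustion function -/
structure IsHyperconvex (Ω : Set E) : Prop where
  isOpen : IsOpen Ω
  isConnected : IsConnected Ω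
  isBounded : Bornology.IsBounded Ω
  exhaustion : ∃ ρ : E → EReal, IsNegPSH Ω ρ ∧
    ∀ c : ℝ, 0 < c → ∃ K, IsCompact K ∧ K ⊆ Ω ∧ ∀ z ∈ Ω \ K, ((-c : ℝ) : EReal) ≤ ρ z

/-- `u(w) ≤ log ‖w - a‖ + O(1)` as `w → a`, for every `a ∈ S` -/
def HasPoles (S : Set E) (u : E → EReal) : Prop :=
  ∀ a ∈ S, ∃ C : ℝ, ∀ᶠ w in 𝓝 a, u w ≤ ENNReal.log (ENNReal.ofReal ‖w - a‖) + (C : EReal)

/-- the pluricomplex Green function of `Ω` with poles at `S` -/
noncomputable def green (Ω S : Set E) (z : E) : EReal :=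
  sSup {t : EReal | ∃ u : E → EReal, IsNegPSH Ω u ∧ HasPoles S u ∧ u z = t}

end Pool.Agent.Zk71.Gr
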